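import Mathlib

set_option autoImplicit false

/-!
# An eulerian 2-edge-coloured graph without a majority 3-partition

Construction. Core vertices `(a, s)`, where `a = (b, r)`, `b` in `ZMod N`, `r < 12`, and `s` is a
side; two core vertices with different first coordinates are joined, by a red edge if they are on
the same side and by a blue edge otherwise. For every `j`, every 3-subset `S` of block `j` and every
3-subset `T` of block `j + 1` (on the side `false`) there is a gadget with the 13 vertices
`0, 1, 2, 3` and `4, …, 12`: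
* `0` and `1` are joined to `S` and `T` by red edges, `2` and `3` by blue edges, and `4, …, 12` are
  joined to `S` by red edges and to `T` by blue edges;
* red edges `01, 12, 13`, `24, …, 29`, `34, …, 38, 3-10`, `11-12`;
* blue edges `02, 03, 04, …, 08` and `14, 15, …, 1-12`.
In a gadget every vertex has as many red edges as blue edges. There is also a copy of every gadget
with red and blue exchanged, so that the core vertices have this property, too.

If `S` lies in one part and `T` in another one, then `4, …, 12` are in the third part, the vertices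
`0, 1, 2, 3` are not, `0` is not in the part of `1`, `2`, `3`, and so the latter three are in the
same part, which is impossible for the vertex `1`. If there are no such `S`, `T`, then one part
contains more than half of every block, and this is impossible when `N` is large, because of the red
edges of the core.
-/

namespace Pool.Agent.Results.MP_ec2f19_co.EulerianCounterexample

open Finset
open scoped Classical

/-- A 2-edge-coloured graph: the edges of the simple graph `G` are coloured red (`true`) or blue
(`false`) by `c`. `colDeg G c γ X v` is the number of edges `v x` of colour `γ` with `x ∈ X`. -/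
noncomputable def colDeg {V : Type} (G : SimpleGraph V) (c : G.edgeSet → Bool) (γ : Bool)
    (X : Set V) (v : V) : ℕ :=
  {x | x ∈ X ∧ ∃ h : G.Adj v x, c ⟨s(v, x), h⟩ = γ}.ncard

/-- Every vertex has red degree equal to its blue degree. -/
def IsEulerian {V : Type} (G : SimpleGraph V) (c : G.edgeSet → Bool) : Prop :=
  ∀ v, colDeg G c true Set.univ v = colDeg G c false Set.univ v

/-- The partition into the sets `{x | f x = i}`, `i = 0, …, k - 1`, is a majority partition: for
every colour, every vertex has at least as many edges to the other parts as to its own part. -/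
def IsMajority {V : Type} (G : SimpleGraph V) (c : G.edgeSet → Bool) {k : ℕ} (f : V → Fin k) :
    Prop :=
  ∀ (γ : Bool) (i : Fin k) (v : V), f v = i →
    colDeg G c γ {x | f x = i} v ≤ colDeg G c γ {x | f x = i}ᶜ v

/-- The 3-subsets of `Fin 12`. -/
abbrev D := {S : Finset (Fin 12) // S.card = 3}

/-- First coordinates of the core vertices. -/
abbrev A (N : ℕ) := ZMod N × Fin 12

/-- Gadgets: `(j, S, T)`. -/
abbrev Ga (N : ℕ) := ZMod N × D × D

/-- The vertices. -/
abbrev V (N : ℕ) := (A N × Bool) ⊕ (Ga N × Bool × Fin 13)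

/-- `a ∈ S` -/
def inS {N : ℕ} (g : Ga N) (a : A N) : Prop := a.1 = g.1 ∧ a.2 ∈ g.2.1.1

/-- `a ∈ T` -/
def inT {N : ℕ} (g : Ga N) (a : A N) : Prop := a.1 = g.1 + 1 ∧ a.2 ∈ g.2.2.1

/-- Colours of the edges from a gadget vertex to `S`. -/
def colS (h : Fin 13) : Bool := if h = 2 ∨ h = 3 then false else true

/-- Colours of the edges from a gadget vertex to `T`. -/
def colT (h : Fin 13) : Bool := if h = 0 ∨ h = 1 then true else false

/-- Colours of the edges in a gadget, `h < h'`: `2` red, `1` blue, `0` no edge. -/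
def tab0 (h h' : Fin 13) : ℕ :=
  match h.1, h'.1 with
  | 0, 1 => 2
  | 1, 2 => 2
  | 1, 3 => 2
  | 0, 2 => 1
  | 0, 3 => 1
  | 0, n + 4 => if n < 5 then 1 else 0
  | 1, _ + 4 => 1
  | 2, n + 4 => if n < 6 then 2 else 0
  | 3, n + 4 => if n < 5 ∨ n = 6 then 2 else 0
  | 11, 12 => 2
  | _, _ => 0

/-- Colours of the edges in a gadget. -/
def tab (h h' : Fin 13) : Option Bool :=
  match max (tab0 h h') (tab0 h' h) with
  | 2 => some true
  | 1 => some false
  | _ => none

lemma tab_comm : ∀ h h' : Fin 13, tab h h' = tab h' h := by decide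

lemma tab_self : ∀ h : Fin 13, tab h h = none := by decide

/-- Colours of the edges from a gadget vertex to the core (side `false`). -/
noncomputable def att {N : ℕ} (g : Ga N) (h : Fin 13) (a : A N) : Option Bool :=
  if inS g a then some (colS h) else if inT g a then some (colT h) else none

/-- Exchange the colours if `e` is true. -/
def tw (e : Bool) (o : Option Bool) : Option Bool := o.map (xor e)

lemma tw_eq (e : Bool) (o : Option Bool) (γ : Bool) : tw e o = some γ ↔ o = some (xor e γ) := by
  rcases o with _ | b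
  · simp [tw]
  · cases e <;> cases b <;> cases γ <;> simp [tw]

/-- The colours of the edges of the whole graph: `some true` is red, `some false` is blue, `none`
means no edge. -/
noncomputable def col {N : ℕ} : V N → V N → Option Bool
  | Sum.inl (a, s), Sum.inl (a', s') => if a = a' then none else some (s == s')
  | Sum.inl (a, s), Sum.inr (g, e, h) => if s then none else tw e (att g h a)
  | Sum.inr (g, e, h), Sum.inl (a, s) => if s then none else tw e (att g h a)
  | Sum.inr (g, e, h), Sum.inr (g', e', h') => if g = g' ∧ e = e' then tw e (tab h h') else none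

lemma col_comm {N : ℕ} (u v : V N) : col u v = col v u := by
  rcases u with ⟨a, s⟩ | ⟨g, e, h⟩ <;> rcases v with ⟨a', s'⟩ | ⟨g', e', h'⟩
  · simp only [col]
    by_cases h : a = a'
    · simp [h]
    · have h' : ¬ a' = a := fun h1 => h h1.symm
      simp only [h, h', if_false]
      cases s <;> cases s' <;> rfl
  · rfl
  · rfl
  · simp only [col]
    by_cases h1 : g = g' ∧ e = e'
    · obtain ⟨rfl, rfl⟩ := h1
      simp [tab_comm h h']
    · have h2 : ¬ (g' = g ∧ e' = e) := fun h2 => h1 ⟨h2.1.symm, h2.2.symm⟩
      simp [h1, h2]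

lemma col_self {N : ℕ} (u : V N) : col u u = none := by
  rcases u with ⟨a, s⟩ | ⟨g, e, h⟩
  · simp [col]
  · simp [col, tab_self, tw]

/-- The graph. -/
def Gr (N : ℕ) : SimpleGraph (V N) where
  Adj u v := (col u v).isSome
  symm := ⟨fun u v h => by rw [col_comm]; exact h⟩
  loopless := ⟨fun u h => by simp [col_self] at h⟩

/-- The edge colouring. -/
noncomputable def cG (N : ℕ) (e : (Gr N).edgeSet) : Bool :=
  Sym2.lift ⟨fun u v => (col u v).getD false, fun u v => congrArg (Option.getD · false) (col_comm u v)⟩ e.1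

lemma colDeg_eq (N : ℕ) (γ : Bool) (X : Set (V N)) (v : V N) :
    colDeg (Gr N) (cG N) γ X v = {x | x ∈ X ∧ col v x = some γ}.ncard := by
  unfold colDeg
  congr 1
  ext x
  refine and_congr_right fun _ => ?_
  constructor
  · rintro ⟨h, h1⟩
    have h2 : (col v x).isSome := h
    have h3 : (col v x).getD false = γ := h1
    obtain ⟨b, hb⟩ := Option.isSome_iff_exists.1 h2
    rw [hb] at h3 ⊢
    rw [← h3]
    rfl
  · intro h
    have h2 : (Gr N).Adj v x := by
      show (col v x).isSome
      simp [h]
    refine ⟨h2, ?_⟩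
    show (col v x).getD false = γ
    simp [h]

section

variable {N : ℕ} [NeZero N]

/-- The number of neighbours `x` of `v` by edges of colour `γ` with `P x`. -/
noncomputable def nb (v : V N) (γ : Bool) (P : V N → Prop) : ℕ :=
  {x | col v x = some γ ∧ P x}.ncard

omit [NeZero N] in
lemma colDeg_nb (γ : Bool) (X : Set (V N)) (v : V N) :
    colDeg (Gr N) (cG N) γ X v = nb v γ (fun x => x ∈ X) := by
  rw [colDeg_eq, nb]
  congr 1
  ext x
  exact and_comm

lemma maj {f : V N → Fin 3} (hf : IsMajority (Gr N) (cG N) f) (v : V N) (γ : Bool) :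
    2 * nb v γ (fun x => f x = f v) ≤ nb v γ (fun _ => True) := by
  have h := hf γ (f v) v rfl
  rw [colDeg_nb, colDeg_nb] at h
  have h2 : nb v γ (fun _ => True) =
      nb v γ (fun x => f x = f v) + nb v γ (fun x => ¬ f x = f v) := by
    unfold nb
    rw [← Set.ncard_union_eq _ (Set.toFinite _) (Set.toFinite _)]
    · congr 1
      ext x
      show (_ ∧ True) ↔ (_ ∧ _) ∨ (_ ∧ _)
      tauto
    · rw [Set.disjoint_left]
      intro x h1 h3
      exact h3.2 h1.2
  have h3 : nb v γ (fun x => x ∈ {x | f x = f v}) = nb v γ (fun x => f x = f v) := rfl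
  have h4 : nb v γ (fun x => x ∈ {x | f x = f v}ᶜ) = nb v γ (fun x => ¬ f x = f v) := rfl
  omega

/-- Neighbours of a gadget vertex. -/
lemma nb_gadget (g : Ga N) (e : Bool) (h : Fin 13) (γ : Bool) (P : V N → Prop) :
    nb (Sum.inr (g, e, h)) γ P =
      {a : A N | att g h a = some (xor e γ) ∧ P (Sum.inl (a, false))}.ncard +
      {h' : Fin 13 | tab h h' = some (xor e γ) ∧ P (Sum.inr (g, e, h'))}.ncard := by
  have h1 : {x : V N | col (Sum.inr (g, e, h)) x = some γ ∧ P x} =
      (fun a => Sum.inl (a, false)) ''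
        {a : A N | att g h a = some (xor e γ) ∧ P (Sum.inl (a, false))} ∪
      (fun h' => Sum.inr (g, e, h')) ''
        {h' : Fin 13 | tab h h' = some (xor e γ) ∧ P (Sum.inr (g, e, h'))} := by
    ext x
    show (col (Sum.inr (g, e, h)) x = some γ ∧ P x) ↔ (∃ a, _) ∨ (∃ h', _)
    rcases x with ⟨a, s⟩ | ⟨g', e', h'⟩
    · cases s
      · simp [col, tw_eq]
      · simp [col]
    · by_cases h2 : g = g' ∧ e = e'
      · obtain ⟨rfl, rfl⟩ := h2
        simp [col, tw_eq]
      · have h3 : col (Sum.inr (g, e, h)) (Sum.inr (g', e', h')) = none := by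
          simp only [col, h2, if_false]
        simp only [h3]
        constructor
        · rintro ⟨h4, _⟩
          exact absurd h4 (by simp)
        · rintro (⟨a, _, h4⟩ | ⟨a, _, h4⟩)
          · exact absurd h4 (by simp)
          · simp only [Sum.inr.injEq, Prod.mk.injEq] at h4
            exact absurd ⟨h4.1, h4.2.1⟩ h2
  unfold nb
  rw [h1, Set.ncard_union_eq _ (Set.toFinite _) (Set.toFinite _), Set.ncard_image_of_injective,
    Set.ncard_image_of_injective]
  · intro a b h2
    simpa using h2
  · intro a b h2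
    simpa using h2
  · rw [Set.disjoint_left]
    rintro x ⟨a, _, rfl⟩ ⟨b, _, h4⟩
    exact absurd h4 (by simp)

/-- `S`, as a set of first coordinates of core vertices. -/
noncomputable def SA (g : Ga N) : Finset (A N) := g.2.1.1.image fun r => (g.1, r)

/-- `T`, as a set of first coordinates of core vertices. -/
noncomputable def TA (g : Ga N) : Finset (A N) := g.2.2.1.image fun r => (g.1 + 1, r)

omit [NeZero N] in
lemma SA_card (g : Ga N) : (SA g).card = 3 := by
  unfold SA
  rw [card_image_of_injective _ (fun a b h => by simpa using h), g.2.1.2]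

omit [NeZero N] in
lemma TA_card (g : Ga N) : (TA g).card = 3 := by
  unfold TA
  rw [card_image_of_injective _ (fun a b h => by simpa using h), g.2.2.2]

omit [NeZero N] in
lemma mem_SA (g : Ga N) (a : A N) : a ∈ SA g ↔ inS g a := by
  obtain ⟨b, r⟩ := a
  simp only [SA, mem_image, inS]
  constructor
  · rintro ⟨r', hr', h⟩
    simp only [Prod.mk.injEq] at h
    exact ⟨h.1.symm, h.2 ▸ hr'⟩
  · rintro ⟨h1, h2⟩
    exact ⟨r, h2, by rw [← h1]⟩

omit [NeZero N] in
lemma mem_TA (g : Ga N) (a : A N) : a ∈ TA g ↔ inT g a := by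
  obtain ⟨b, r⟩ := a
  simp only [TA, mem_image, inT]
  constructor
  · rintro ⟨r', hr', h⟩
    simp only [Prod.mk.injEq] at h
    exact ⟨h.1.symm, h.2 ▸ hr'⟩
  · rintro ⟨h1, h2⟩
    exact ⟨r, h2, by rw [← h1]⟩

omit [NeZero N] in
lemma not_both (hN : 1 < N) (g : Ga N) (a : A N) (h1 : inS g a) (h2 : inT g a) : False := by
  have : Fact (1 < N) := ⟨hN⟩
  have h : g.1 = g.1 + 1 := h1.1.symm.trans h2.1
  have h3 : (1 : ZMod N) = 0 := by
    have := congrArg (fun t => t - g.1) h
    simpa using this.symm
  exact one_ne_zero h3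

/-- Edges from a gadget vertex to the core. -/
lemma att_card (hN : 1 < N) (g : Ga N) (h : Fin 13) (γ : Bool) (P : A N → Prop) :
    {a : A N | att g h a = some γ ∧ P a}.ncard =
      (if colS h = γ then {a | a ∈ SA g ∧ P a}.ncard else 0) +
      (if colT h = γ then {a | a ∈ TA g ∧ P a}.ncard else 0) := by
  have h1 : {a : A N | att g h a = some γ ∧ P a} =
      {a | colS h = γ ∧ a ∈ SA g ∧ P a} ∪ {a | colT h = γ ∧ a ∈ TA g ∧ P a} := by
    ext a
    have h0 := not_both hN g a
    show (_ ∧ _) ↔ (_ ∧ _ ∧ _) ∨ (_ ∧ _ ∧ _)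
    by_cases hS : inS g a <;> by_cases hT : inT g a <;> by_cases c1 : colS h = γ <;>
      by_cases c2 : colT h = γ <;>
      simp_all [att, mem_SA, mem_TA]
  rw [h1, Set.ncard_union_eq _ (Set.toFinite _) (Set.toFinite _)]
  · by_cases c1 : colS h = γ <;> by_cases c2 : colT h = γ <;> simp [c1, c2]
  · rw [Set.disjoint_left]
    rintro a ⟨_, h2, _⟩ ⟨_, h3, _⟩
    exact not_both hN g a ((mem_SA g a).1 h2) ((mem_TA g a).1 h3)

/-- The number of edges of colour `γ` at the vertex `h` of a gadget. -/
def dg (h : Fin 13) (γ : Bool) : ℕ :=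
  (if colS h = γ then 3 else 0) + (if colT h = γ then 3 else 0) +
    (univ.filter fun h' : Fin 13 => tab h h' = some γ).card

lemma dg_eq : ∀ h : Fin 13, ∀ γ : Bool, dg h γ = dg h true := by decide

lemma nb_total (hN : 1 < N) (g : Ga N) (e : Bool) (h : Fin 13) (γ : Bool) :
    nb (Sum.inr (g, e, h)) γ (fun _ => True) = dg h (xor e γ) := by
  rw [nb_gadget, att_card hN, dg]
  have h1 : {a | a ∈ SA g ∧ True}.ncard = 3 := by
    rw [← SA_card g, ← Set.ncard_coe_finset]
    congr 1
    ext a
    exact ⟨fun h => h.1, fun h => ⟨h, trivial⟩⟩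
  have h2 : {a | a ∈ TA g ∧ True}.ncard = 3 := by
    rw [← TA_card g, ← Set.ncard_coe_finset]
    congr 1
    ext a
    exact ⟨fun h => h.1, fun h => ⟨h, trivial⟩⟩
  have h3 : {h' : Fin 13 | tab h h' = some (xor e γ) ∧ True}.ncard =
      (univ.filter fun h' : Fin 13 => tab h h' = some (xor e γ)).card := by
    rw [← Set.ncard_coe_finset]
    congr 1
    ext a
    simp
  rw [h1, h2, h3]

/-- The conditions at the vertices of a gadget. -/
lemma gadget_ineq (hN : 1 < N) {f : V N → Fin 3} (hf : IsMajority (Gr N) (cG N) f) (g : Ga N)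
    (p q : Fin 3) (hS : ∀ a ∈ SA g, f (Sum.inl (a, false)) = p)
    (hT : ∀ a ∈ TA g, f (Sum.inl (a, false)) = q) (h : Fin 13) (γ : Bool) :
    2 * ((if colS h = γ ∧ f (Sum.inr (g, false, h)) = p then 3 else 0) +
      (if colT h = γ ∧ f (Sum.inr (g, false, h)) = q then 3 else 0) +
      {h' : Fin 13 | tab h h' = some γ ∧
        f (Sum.inr (g, false, h')) = f (Sum.inr (g, false, h))}.ncard) ≤ dg h γ := by
  have h1 := maj hf (Sum.inr (g, false, h)) γ
  rw [nb_total hN, nb_gadget, att_card hN] at h1
  simp only [Bool.false_xor] at h1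
  have h2 : (if colS h = γ ∧ f (Sum.inr (g, false, h)) = p then 3 else 0) ≤
      (if colS h = γ then
        {a | a ∈ SA g ∧ f (Sum.inl (a, false)) = f (Sum.inr (g, false, h))}.ncard else 0) := by
    split_ifs with h3 h4 h4
    · refine (SA_card g).symm.trans_le ?_
      rw [← Set.ncard_coe_finset]
      exact Set.ncard_le_ncard (fun a ha => ⟨ha, (hS a ha).trans h3.2.symm⟩) (Set.toFinite _)
    · exact absurd h3.1 h4
    · exact Nat.zero_le _
    · exact Nat.zero_le _
  have h3 : (if colT h = γ ∧ f (Sum.inr (g, false, h)) = q then 3 else 0) ≤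
      (if colT h = γ then
        {a | a ∈ TA g ∧ f (Sum.inl (a, false)) = f (Sum.inr (g, false, h))}.ncard else 0) := by
    split_ifs with h3 h4 h4
    · refine (TA_card g).symm.trans_le ?_
      rw [← Set.ncard_coe_finset]
      exact Set.ncard_le_ncard (fun a ha => ⟨ha, (hT a ha).trans h3.2.symm⟩) (Set.toFinite _)
    · exact absurd h3.1 h4
    · exact Nat.zero_le _
    · exact Nat.zero_le _
  exact le_trans (Nat.mul_le_mul_left 2 (Nat.add_le_add (Nat.add_le_add h2 h3) le_rfl)) h1

omit [NeZero N] in
/-- Lower bound for the number of neighbours in a gadget. -/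
lemma tab_lower (F : Fin 13 → Fin 3) (h : Fin 13) (γ : Bool) (t : Fin 3) (E : Finset (Fin 13))
    (hE : ∀ h' ∈ E, tab h h' = some γ) (hF : ∀ h' ∈ E, F h' = t) :
    E.card ≤ {h' : Fin 13 | tab h h' = some γ ∧ F h' = t}.ncard := by
  rw [← Set.ncard_coe_finset]
  exact Set.ncard_le_ncard (fun a ha => ⟨hE a ha, hF a ha⟩) (Set.toFinite _)

/-- The conditions at the vertices of a gadget are contradictory. -/
lemma no_assignment (p q : Fin 3) (hpq : p ≠ q) (F : Fin 13 → Fin 3)
    (hF : ∀ (h : Fin 13) (γ : Bool), 2 * ((if colS h = γ ∧ F h = p then 3 else 0) +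
      (if colT h = γ ∧ F h = q then 3 else 0) +
      {h' : Fin 13 | tab h h' = some γ ∧ F h' = F h}.ncard) ≤ dg h γ) : False := by
  have key : ∀ p q r s : Fin 3, p ≠ q → r ≠ p → r ≠ q → s ≠ p → s ≠ q → s = r := by decide
  have key2 : ∀ a b p q : Fin 3, (a = p ∨ a = q) → (b = p ∨ b = q) → a ≠ b →
      (a = p ∧ b = q) ∨ (a = q ∧ b = p) := by
    rintro a b p q (rfl | rfl) (rfl | rfl) h
    · exact absurd rfl h
    · exact Or.inl ⟨rfl, rfl⟩
    · exact Or.inr ⟨rfl, rfl⟩
    · exact absurd rfl h
  have d5 : ∀ h : Fin 13, 4 ≤ h → ∀ γ, dg h γ ≤ 5 ∧ colS h = true ∧ colT h = false := by decide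
  have c1 : ∀ h : Fin 13, 4 ≤ h → F h ≠ p := by
    intro h hh hp
    have h1 := hF h true
    have h2 := d5 h hh true
    rw [if_pos ⟨h2.2.1, hp⟩] at h1
    omega
  have c2 : ∀ h : Fin 13, 4 ≤ h → F h ≠ q := by
    intro h hh hp
    have h1 := hF h false
    have h2 := d5 h hh false
    rw [if_pos (⟨h2.2.2, hp⟩ : colT h = false ∧ F h = q)] at h1
    omega
  have c3 : ∀ s : Fin 3, s ≠ p → s ≠ q → ∀ h : Fin 13, 4 ≤ h → F h = s := fun s h1 h2 h hh =>
    (key p q (F h) s hpq (c1 h hh) (c2 h hh) h1 h2).symm
  have s0 : F 0 = p ∨ F 0 = q := by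
    by_contra hcon
    push Not at hcon
    have h1 := tab_lower F 0 false (F 0) {4, 5, 6, 7, 8} (by decide)
      (fun h' hh => c3 _ hcon.1 hcon.2 h' (by revert h'; decide))
    have h2 := hF 0 false
    have h3 : dg 0 false = 7 := by decide
    have h4 : ({4, 5, 6, 7, 8} : Finset (Fin 13)).card = 5 := by decide
    omega
  have s1 : F 1 = p ∨ F 1 = q := by
    by_contra hcon
    push Not at hcon
    have h1 := tab_lower F 1 false (F 1) {4, 5, 6, 7, 8} (by decide)
      (fun h' hh => c3 _ hcon.1 hcon.2 h' (by revert h'; decide))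
    have h2 := hF 1 false
    have h3 : dg 1 false = 9 := by decide
    have h4 : ({4, 5, 6, 7, 8} : Finset (Fin 13)).card = 5 := by decide
    omega
  have s2 : F 2 = p ∨ F 2 = q := by
    by_contra hcon
    push Not at hcon
    have h1 := tab_lower F 2 true (F 2) {4, 5, 6, 7, 8} (by decide)
      (fun h' hh => c3 _ hcon.1 hcon.2 h' (by revert h'; decide))
    have h2 := hF 2 true
    have h3 : dg 2 true = 7 := by decide
    have h4 : ({4, 5, 6, 7, 8} : Finset (Fin 13)).card = 5 := by decide
    omega
  have s3 : F 3 = p ∨ F 3 = q := by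
    by_contra hcon
    push Not at hcon
    have h1 := tab_lower F 3 true (F 3) {4, 5, 6, 7, 8} (by decide)
      (fun h' hh => c3 _ hcon.1 hcon.2 h' (by revert h'; decide))
    have h2 := hF 3 true
    have h3 : dg 3 true = 7 := by decide
    have h4 : ({4, 5, 6, 7, 8} : Finset (Fin 13)).card = 5 := by decide
    omega
  -- the vertices `0` and `i` are in different parts
  have three : ∀ h : Fin 13, ∀ γ, colS h = γ → colT h = γ → (F h = p ∨ F h = q) →
      3 ≤ (if colS h = γ ∧ F h = p then 3 else 0) + (if colT h = γ ∧ F h = q then 3 else 0) := by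
    intro h γ h1 h2 h3
    rcases h3 with h3 | h3
    · rw [if_pos ⟨h1, h3⟩]
      omega
    · rw [if_pos (⟨h2, h3⟩ : colT h = γ ∧ F h = q)]
      omega
  have d1 : F 0 ≠ F 1 := by
    intro h
    have h1 := tab_lower F 0 true (F 0) {1} (by decide) (by simpa using h.symm)
    have h2 := hF 0 true
    have h3 : dg 0 true = 7 := by decide
    have h4 := three 0 true (by decide) (by decide) s0
    have h5 : ({1} : Finset (Fin 13)).card = 1 := by decide
    omega
  have d2 : F 0 ≠ F 2 := by
    intro h
    have h1 := tab_lower F 2 false (F 2) {0} (by decide) (by simpa using h)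
    have h2 := hF 2 false
    have h3 : dg 2 false = 7 := by decide
    have h4 := three 2 false (by decide) (by decide) s2
    have h5 : ({0} : Finset (Fin 13)).card = 1 := by decide
    omega
  have d3 : F 0 ≠ F 3 := by
    intro h
    have h1 := tab_lower F 3 false (F 3) {0} (by decide) (by simpa using h)
    have h2 := hF 3 false
    have h3 : dg 3 false = 7 := by decide
    have h4 := three 3 false (by decide) (by decide) s3
    have h5 : ({0} : Finset (Fin 13)).card = 1 := by decide
    omega
  have e2 : F 2 = F 1 := by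
    rcases key2 _ _ p q s0 s1 d1 with ⟨h1, h2⟩ | ⟨h1, h2⟩ <;>
      rcases key2 _ _ p q s0 s2 d2 with ⟨h3, h4⟩ | ⟨h3, h4⟩
    · rw [h4, h2]
    · exact absurd (h1.symm.trans h3) hpq
    · exact absurd (h3.symm.trans h1) hpq
    · rw [h4, h2]
  have e3 : F 3 = F 1 := by
    rcases key2 _ _ p q s0 s1 d1 with ⟨h1, h2⟩ | ⟨h1, h2⟩ <;>
      rcases key2 _ _ p q s0 s3 d3 with ⟨h3, h4⟩ | ⟨h3, h4⟩
    · rw [h4, h2]
    · exact absurd (h1.symm.trans h3) hpq
    · exact absurd (h3.symm.trans h1) hpq
    · rw [h4, h2]
  have h1 := tab_lower F 1 true (F 1) {2, 3} (by decide) (by simp [e2, e3])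
  have h2 := hF 1 true
  have h3 : dg 1 true = 9 := by decide
  have h4 := three 1 true (by decide) (by decide) s1
  have h5 : ({2, 3} : Finset (Fin 13)).card = 2 := by decide
  omega

/-- The number of core vertices of block `b` on the side `false` in part `i`. -/
noncomputable def cnt (f : V N → Fin 3) (b : ZMod N) (i : Fin 3) : ℕ :=
  (univ.filter fun r : Fin 12 => f (Sum.inl ((b, r), false)) = i).card

variable {f : V N → Fin 3}

omit [NeZero N] in
lemma cnt_sum (b : ZMod N) : cnt f b 0 + cnt f b 1 + cnt f b 2 = 12 := by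
  have h := card_eq_sum_card_fiberwise (s := (univ : Finset (Fin 12)))
    (t := (univ : Finset (Fin 3))) (f := fun r => f (Sum.inl ((b, r), false)))
    (fun _ _ => mem_univ _)
  rw [card_univ, Fintype.card_fin, Fin.sum_univ_three] at h
  exact h.symm

lemma cross (hN : 1 < N) (hf : IsMajority (Gr N) (cG N) f) (b : ZMod N)
    (p q : Fin 3) (hp : 3 ≤ cnt f b p) (hq : 3 ≤ cnt f (b + 1) q) : p = q := by
  by_contra hpq
  obtain ⟨S, hS, hSK⟩ := exists_subset_card_eq hp
  obtain ⟨T, hT, hTK⟩ := exists_subset_card_eq hq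
  refine no_assignment p q hpq (fun h => f (Sum.inr ((b, ⟨S, hSK⟩, ⟨T, hTK⟩), false, h)))
    (gadget_ineq hN hf (b, ⟨S, hSK⟩, ⟨T, hTK⟩) p q ?_ ?_)
  · intro u hu
    obtain ⟨r, hr, rfl⟩ := mem_image.1 hu
    exact (mem_filter.1 (hS hr)).2
  · intro u hu
    obtain ⟨r, hr, rfl⟩ := mem_image.1 hu
    exact (mem_filter.1 (hT hr)).2

lemma blocks (hN : 1 < N) (hf : IsMajority (Gr N) (cG N) f) :
    ∃ i : Fin 3, ∀ b : ZMod N, 8 ≤ cnt f b i := by
  have hτ : ∀ b : ZMod N, ∃ i : Fin 3, 3 ≤ cnt f b i := by
    intro b
    by_contra hcon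
    push Not at hcon
    have h0 := hcon 0
    have h1 := hcon 1
    have h2 := hcon 2
    have := cnt_sum (f := f) b
    omega
  choose τ hτ using hτ
  have step : ∀ b, τ (b + 1) = τ b := fun b => (cross hN hf b _ _ (hτ b) (hτ (b + 1))).symm
  have hn : ∀ n : ℕ, τ (n : ZMod N) = τ 0 := by
    intro n
    induction n with
    | zero => simp
    | succ n ih => rw [Nat.cast_succ, step, ih]
  have hall : ∀ b, τ b = τ 0 := fun b => by
    rw [← ZMod.natCast_zmod_val b]
    exact hn _
  refine ⟨τ 0, fun b => ?_⟩
  have hb : b = (b - 1) + 1 := by ring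
  have hlt : ∀ q, q ≠ τ 0 → cnt f b q < 3 := by
    intro q hq
    by_contra hcon
    push Not at hcon
    rw [hb] at hcon
    have := cross hN hf (b - 1) _ q (hτ (b - 1)) hcon
    rw [hall] at this
    exact hq this.symm
  have h3 := cnt_sum (f := f) b
  have h0 := hlt 0
  have h1 := hlt 1
  have h2 := hlt 2
  generalize τ 0 = t at h0 h1 h2 ⊢
  fin_cases t
  · have := h1 (by decide)
    have := h2 (by decide)
    show 8 ≤ cnt f b 0
    omega
  · have := h0 (by decide)
    have := h2 (by decide)
    show 8 ≤ cnt f b 1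
    omega
  · have := h0 (by decide)
    have := h1 (by decide)
    show 8 ≤ cnt f b 2
    omega

/-- Bound for the number of gadget vertices adjacent to a core vertex. -/
def gd : ℕ := 2 * Fintype.card (D × D) * Fintype.card (Bool × Fin 13)

lemma no_majority (hN : gd + 2 ≤ N) (f : V N → Fin 3) :
    ¬ IsMajority (Gr N) (cG N) f := by
  intro hf
  obtain ⟨i, hi⟩ := blocks (by omega) hf
  -- the part `i` of the core
  set P : Finset (A N) := univ.filter fun a => f (Sum.inl (a, false)) = i with hP
  have hPc : N * 8 ≤ P.card := by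
    have h1 := card_eq_sum_card_fiberwise (s := P) (t := (univ : Finset (ZMod N)))
      (f := fun a => a.1) (fun _ _ => mem_univ _)
    have h2 : ∀ b : ZMod N, cnt f b i ≤ (P.filter fun a => a.1 = b).card := by
      intro b
      refine card_le_card_of_injOn (fun r => (b, r)) ?_ (fun r _ r' _ h => by simpa using h)
      intro r hr
      have hr := (mem_filter.1 hr).2
      simp [hP, hr]
    rw [h1]
    calc N * 8 = ∑ _b : ZMod N, 8 := by
          rw [sum_const, card_univ, ZMod.card, smul_eq_mul]
      _ ≤ _ := sum_le_sum fun b _ => (hi b).trans (h2 b)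
  have hpos : 0 < P.card := lt_of_lt_of_le (Nat.mul_pos (by omega) (by omega)) hPc
  obtain ⟨a, ha⟩ := card_pos.1 hpos
  have hai : f (Sum.inl (a, false)) = i := (mem_filter.1 ha).2
  set F2 : Finset (V N) := (((({a.1, a.1 - 1} : Finset (ZMod N)) ×ˢ
    (univ : Finset (D × D))) ×ˢ (univ : Finset (Bool × Fin 13))).image fun t => Sum.inr t) with hF2
  have hF2c : F2.card ≤ gd := by
    refine card_image_le.trans ?_
    rw [card_product, card_product, card_univ, card_univ, gd]
    gcongr
    exact card_le_two
  have hm := maj hf (Sum.inl (a, false)) true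
  have hlow : (P.erase a).card ≤
      nb (Sum.inl (a, false)) true (fun x => f x = f (Sum.inl (a, false))) := by
    have h1 : ((P.erase a).image fun a' => (Sum.inl (a', false) : V N)).card = (P.erase a).card :=
      card_image_of_injective _ (fun x y h => by simpa using h)
    rw [← h1, nb, ← Set.ncard_coe_finset]
    refine Set.ncard_le_ncard (fun u hu => ?_) (Set.toFinite _)
    obtain ⟨a', ha', rfl⟩ := mem_image.1 (mem_coe.1 hu)
    have h1 := mem_erase.1 ha'
    have h2 := (mem_filter.1 h1.2).2
    have h3 : ¬ a = a' := fun h => h1.1 h.symm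
    refine ⟨?_, h2.trans hai.symm⟩
    simp [col, h3]
  have hup : nb (Sum.inl (a, false)) true (fun _ => True) ≤ (N * 12 - 1) + gd := by
    have h1 : nb (Sum.inl (a, false)) true (fun _ => True) ≤
        (((univ.erase a).image fun a' => (Sum.inl (a', false) : V N)) ∪ F2).card := by
      rw [nb, ← Set.ncard_coe_finset]
      refine Set.ncard_le_ncard (fun u hu => ?_) (Set.toFinite _)
      have hu : col (Sum.inl (a, false)) u = some true := hu.1
      rw [mem_coe]
      rcases u with ⟨a', s⟩ | ⟨g, e, h⟩
      · have h2 : a ≠ a' := by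
          rintro rfl
          simp [col] at hu
        have h3 : s = false := by
          cases s
          · rfl
          · simp [col, h2] at hu
        subst h3
        exact mem_union_left _ (mem_image.2 ⟨a', mem_erase.2 ⟨h2.symm, mem_univ _⟩, rfl⟩)
      · refine mem_union_right _ (mem_image.2 ⟨(g, e, h), ?_, rfl⟩)
        have hg : inS g a ∨ inT g a := by
          by_contra hcon
          push Not at hcon
          simp [col, att, hcon.1, hcon.2, tw] at hu
        simp only [mem_product, mem_univ, and_true, mem_insert, mem_singleton]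
        rcases hg with hg | hg
        · exact Or.inl hg.1.symm
        · right
          rw [hg.1]
          ring
    refine h1.trans ((card_union_le _ _).trans (Nat.add_le_add ?_ hF2c))
    rw [card_image_of_injective _ (fun x y h => by simpa using h), card_erase_of_mem (mem_univ _),
      card_univ, Fintype.card_prod, ZMod.card, Fintype.card_fin]
  rw [card_erase_of_mem ha] at hlow
  omega

omit [NeZero N] in
/-- The core vertices have as many red as blue edges. -/
lemma euler_core (a : A N) (s : Bool) :
    nb (Sum.inl (a, s)) true (fun _ => True) = nb (Sum.inl (a, s)) false (fun _ => True) := by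
  -- exchange the sides of the core, and the two copies of every gadget
  let φ : V N → V N := fun x => match x with
    | Sum.inl (a', s') => Sum.inl (a', !s')
    | Sum.inr (g, e, h) => Sum.inr (g, !e, h)
  have hφ : ∀ x, φ (φ x) = x := by
    rintro (⟨a', s'⟩ | ⟨g, e, h⟩) <;> simp [φ]
  have hinj : Function.Injective φ := fun x y h => by rw [← hφ x, h, hφ]
  have hc : ∀ x γ, col (Sum.inl (a, s)) (φ x) = some γ ↔ col (Sum.inl (a, s)) x = some (!γ) := by
    rintro (⟨a', s'⟩ | ⟨g, e, h⟩) γ
    · by_cases h1 : a = a'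
      · simp [φ, col, h1]
      · cases s <;> cases s' <;> cases γ <;> simp [φ, col, h1]
    · cases s
      · simp only [φ, col, tw_eq, Bool.false_eq_true, if_false]
        cases e <;> cases γ <;> simp
      · simp [φ, col]
  have h1 : {x | col (Sum.inl (a, s)) x = some true ∧ True} =
      φ '' {x | col (Sum.inl (a, s)) x = some false ∧ True} := by
    ext x
    constructor
    · rintro ⟨h, _⟩
      refine ⟨φ x, ⟨(hc x false).2 (by simpa using h), trivial⟩, hφ x⟩
    · rintro ⟨y, ⟨h, _⟩, rfl⟩
      exact ⟨(hc y true).2 (by simpa using h), trivial⟩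
  rw [nb, nb, h1, Set.ncard_image_of_injective _ hinj]

lemma euler (hN : 1 < N) : IsEulerian (Gr N) (cG N) := by
  intro v
  rw [colDeg_nb, colDeg_nb]
  show nb v true (fun _ => True) = nb v false (fun _ => True)
  rcases v with ⟨a, s⟩ | ⟨g, e, h⟩
  · exact euler_core a s
  · rw [nb_total hN, nb_total hN, dg_eq, dg_eq h (xor e false)]

end

/-- There is a finite 2-edge-coloured graph in which every vertex has red degree equal to its blue
degree, and which has no majority 3-partition. -/
theorem result : ∃ (V : Type) (_ : Finite V) (G : SimpleGraph V) (c : G.edgeSet → Bool),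
    IsEulerian G c ∧ ¬ ∃ f : V → Fin 3, IsMajority G c f := by
  have hN : NeZero (gd + 2) := ⟨by omega⟩
  refine ⟨V (gd + 2), inferInstance, Gr _, cG _, euler ?_, ?_⟩
  · have h1 : 0 < gd := by
      unfold gd
      have : Nonempty D := ⟨⟨{0, 1, 2}, by decide⟩⟩
      positivity
    omega
  · rintro ⟨f, hf⟩
    exact no_majority le_rfl f hf

end Pool.Agent.Results.MP_ec2f19_co.EulerianCounterexample
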